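import Mathlib
import Pool.Agent.X49.Gallai

/-! MP_aa43e9_co: in a `k`-regular graph on `2k+1` vertices without induced 5-cycle and bull, for
every vertex `v` with neighbours `N` and non-neighbours `M`: `G[N]` is disconnected or has a
disconnected complement, so is `G[M]`, and it is not the case that `G[N]` and the complement of
`G[M]` are both disconnected.

First part (`main`): the case that `G[N]` and the complement of `G[M]` are disconnected.

Write `N`, `M` for the sets of neighbours and non-neighbours of `v`.  By regularity two nonadjacent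
vertices have a common neighbour and two adjacent vertices have a common non-neighbour.
(1) if `x ∈ N`, `m ∈ M` are not adjacent, then `m` has a neighbour in another component of `N`;
(2) if `x ∈ N` distinguishes two vertices of one co-component of `M`, then all neighbours of `x` in
`M` are in this co-component;
(3) if `x, y ∈ N` are not adjacent, then `N(x) \ N(y)` and `N(y) \ N(x)` are anticomplete in `M`.
Take `x ∈ N` with the largest number of neighbours in `M`. By (1) and (3) every `m ∈ M` not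
adjacent to `x` has a non-neighbour `p ∈ M` adjacent to `x`; with (2) this is a contradiction.

Second part (`caseA`): `G[M]` and its complement are connected. Call an edge `pq` of `G[M]` weak if
`p`, `q` have a common neighbour in `N`; the classes generated by the weak edges are homogeneous in
`G[M]`, and there are at least two (`claim3`), so (Seinsche) there is an induced path
`p1 p2 p3 p4` of representatives, whose edges are not weak; this is impossible (`p4kill`). The
remaining case is that of the complement. -/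

set_option autoImplicit false

namespace Pool.Agent.Results.MP_aa43e9_co.DecomposableNeighbourhoods

open SimpleGraph

/-- The bull: the triangle `0, 1, 2` with the pendant edges `0 3` and `1 4`. -/
def bull : SimpleGraph (Fin 5) := SimpleGraph.fromEdgeSet {s(0, 1), s(1, 2), s(2, 0), s(0, 3), s(1, 4)}

section aux

variable {V : Type} {G : SimpleGraph V}

lemma mkEmb (H : SimpleGraph (Fin 5)) (f : Fin 5 → V)
    (h : ∀ i j : Fin 5, i < j → (H.Adj i j ∧ G.Adj (f i) (f j)) ∨ (¬ H.Adj i j ∧ Gᶜ.Adj (f i) (f j))) :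
    Nonempty (H ↪g G) := by
  have hne : ∀ i j : Fin 5, i < j → f i ≠ f j := by
    intro i j hij
    rcases h i j hij with h1 | h1
    · exact h1.2.ne
    · exact h1.2.ne
  have hinj : Function.Injective f := by
    intro i j hij
    rcases lt_trichotomy i j with h1 | h1 | h1
    · exact absurd hij (hne i j h1)
    · exact h1
    · exact absurd hij.symm (hne j i h1)
  have hadj : ∀ i j : Fin 5, i < j → (G.Adj (f i) (f j) ↔ H.Adj i j) := by
    intro i j hij
    rcases h i j hij with h1 | h1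
    · exact ⟨fun _ => h1.1, fun _ => h1.2⟩
    · refine ⟨fun h2 => absurd h2 ?_, fun h2 => absurd h2 h1.1⟩
      exact ((SimpleGraph.compl_adj _ _ _).1 h1.2).2
  refine ⟨⟨⟨f, hinj⟩, ?_⟩⟩
  intro i j
  show G.Adj (f i) (f j) ↔ H.Adj i j
  rcases lt_trichotomy i j with h1 | h1 | h1
  · exact hadj i j h1
  · subst h1; simp
  · rw [G.adj_comm, H.adj_comm]; exact hadj j i h1

lemma mkC5 {a b c d e : V} (h1 : G.Adj a b) (h2 : G.Adj b c) (h3 : G.Adj c d) (h4 : G.Adj d e)
    (h5 : G.Adj a e) (n1 : Gᶜ.Adj a c) (n2 : Gᶜ.Adj a d) (n3 : Gᶜ.Adj b d) (n4 : Gᶜ.Adj b e)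
    (n5 : Gᶜ.Adj c e) : Nonempty (cycleGraph 5 ↪g G) := by
  refine mkEmb _ ![a, b, c, d, e] ?_
  intro i j hij
  have hd : ∀ i j : Fin 5, i < j → ((cycleGraph 5).Adj i j ↔
    ((i, j) = (0,1) ∨ (i, j) = (1,2) ∨ (i, j) = (2,3) ∨ (i, j) = (3,4) ∨ (i, j) = (0,4))) := by
    decide
  rw [hd i j hij]
  fin_cases i <;> fin_cases j <;> first | (exfalso; revert hij; decide) | (left; exact ⟨by decide, by assumption⟩) | (right; exact ⟨by decide, by assumption⟩)

lemma mkBull {a b c d e : V} (h1 : G.Adj a b) (h2 : G.Adj b c) (h3 : G.Adj a c) (h4 : G.Adj a d)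
    (h5 : G.Adj b e) (n1 : Gᶜ.Adj a e) (n2 : Gᶜ.Adj b d) (n3 : Gᶜ.Adj c d) (n4 : Gᶜ.Adj c e)
    (n5 : Gᶜ.Adj d e) : Nonempty (bull ↪g G) := by
  refine mkEmb _ ![a, b, c, d, e] ?_
  intro i j hij
  have hd : ∀ i j : Fin 5, i < j → (bull.Adj i j ↔
    ((i, j) = (0,1) ∨ (i, j) = (1,2) ∨ (i, j) = (0,2) ∨ (i, j) = (0,3) ∨ (i, j) = (1,4))) := by
    unfold bull
    simp only [SimpleGraph.fromEdgeSet_adj, Set.mem_insert_iff, Set.mem_singleton_iff]
    decide
  rw [hd i j hij]
  fin_cases i <;> fin_cases j <;> first | (exfalso; revert hij; decide) | (left; exact ⟨by decide, by assumption⟩) | (right; exact ⟨by decide, by assumption⟩)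

lemma cross {α : Type} {r : α → α → Prop} {a b : α} (h : Relation.ReflTransGen r a b)
    (P : α → Prop) (ha : P a) (hb : ¬ P b) :
    ∃ c d, Relation.ReflTransGen r a c ∧ r c d ∧ P c ∧ ¬ P d := by
  induction h with
  | refl => exact absurd ha hb
  | @tail c d hc hcd ih =>
    by_cases hP : P c
    · exact ⟨c, d, hc, hcd, hP, hb⟩
    · exact ih hP

lemma commonNbr [Fintype V] [DecidableEq V] [DecidableRel G.Adj] {k : ℕ}
    (hG : G.IsRegularOfDegree k) (hc : Fintype.card V = 2 * k + 1) {u w : V} (hne : u ≠ w)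
    (huw : ¬ G.Adj u w) : ∃ z, G.Adj u z ∧ G.Adj w z := by
  by_contra hcon
  push Not at hcon
  have hdis : Disjoint (G.neighborFinset u) (G.neighborFinset w) := by
    rw [Finset.disjoint_left]
    intro z h1 h2
    rw [mem_neighborFinset] at h1 h2
    exact hcon z h1 h2
  have hsub : G.neighborFinset u ∪ G.neighborFinset w ⊆ (Finset.univ.erase u).erase w := by
    intro z hz
    rw [Finset.mem_union, mem_neighborFinset, mem_neighborFinset] at hz
    rw [Finset.mem_erase, Finset.mem_erase]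
    refine ⟨?_, ?_, Finset.mem_univ _⟩
    · rintro rfl
      rcases hz with h | h
      · exact huw h
      · exact h.ne rfl
    · rintro rfl
      rcases hz with h | h
      · exact h.ne rfl
      · exact huw h.symm
  have hcard := Finset.card_le_card hsub
  have hw : w ∈ (Finset.univ : Finset V).erase u := by
    rw [Finset.mem_erase]; exact ⟨hne.symm, Finset.mem_univ _⟩
  have h1 : 1 < Fintype.card V := Fintype.one_lt_card_iff.2 ⟨u, w, hne⟩
  rw [Finset.card_union_of_disjoint hdis, card_neighborFinset_eq_degree,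
    card_neighborFinset_eq_degree, hG u, hG w, Finset.card_erase_of_mem hw,
    Finset.card_erase_of_mem (Finset.mem_univ _), Finset.card_univ, hc] at hcard
  omega

end aux

theorem main {V : Type} [Fintype V] [DecidableEq V] (G : SimpleGraph V) [DecidableRel G.Adj]
    (k : ℕ) (hG : G.IsRegularOfDegree k) (hc : Fintype.card V = 2 * k + 1) (v : V)
    (hN : ¬ (G.induce (G.neighborSet v)).Preconnected)
    (hM : ¬ (Gᶜ.induce (Gᶜ.neighborSet v)).Preconnected) :
    Nonempty (cycleGraph 5 ↪g G) ∨ Nonempty (bull ↪g G) := by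
  classical
  by_contra hcon
  push Not at hcon
  obtain ⟨hC, hB⟩ := hcon
  rw [← not_nonempty_iff] at hC hB
  -- common neighbours and non-neighbours
  have hG' : Gᶜ.IsRegularOfDegree k := by
    have := hG.compl
    have e : Fintype.card V - 1 - k = k := by omega
    rwa [e] at this
  have cn : ∀ u w : V, Gᶜ.Adj u w → ∃ z, G.Adj u z ∧ G.Adj w z := by
    intro u w h
    rw [compl_adj] at h
    exact commonNbr hG hc h.1 h.2
  have cn' : ∀ u w : V, G.Adj u w → ∃ z, Gᶜ.Adj u z ∧ Gᶜ.Adj w z := by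
    intro u w h
    refine commonNbr hG' hc h.ne ?_
    rw [compl_adj]; tauto
  have nadj : ∀ {u w : V}, u ≠ w → ¬ G.Adj u w → Gᶜ.Adj u w := by
    intro u w h1 h2; rw [compl_adj]; exact ⟨h1, h2⟩
  have nad : ∀ {u w : V}, Gᶜ.Adj u w → ¬ G.Adj u w := by
    intro u w h; rw [compl_adj] at h; exact h.2
  set H := G.induce (G.neighborSet v) with hH
  set K := Gᶜ.induce (Gᶜ.neighborSet v) with hK
  have vN : ∀ x : G.neighborSet v, G.Adj v x := fun x => x.2
  have vM : ∀ m : Gᶜ.neighborSet v, Gᶜ.Adj v m := fun m => m.2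
  have xm : ∀ (x : G.neighborSet v) (m : Gᶜ.neighborSet v), (x : V) ≠ m := by
    intro x m h
    exact nad (vM m) (h ▸ vN x)
  unfold Preconnected at hN hM
  push Not at hN hM
  obtain ⟨x1, x2, hx12⟩ := hN
  obtain ⟨m1, m2, hm12⟩ := hM
  have otherN : ∀ x : G.neighborSet v, ∃ y, ¬ H.Reachable x y := by
    intro x
    by_contra h
    push Not at h
    exact hx12 ((h x1).symm.trans (h x2))
  have otherM : ∀ x : Gᶜ.neighborSet v, ∃ y, ¬ K.Reachable x y := by
    intro x
    by_contra h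
    push Not at h
    exact hm12 ((h m1).symm.trans (h m2))
  have nrN : ∀ x y : G.neighborSet v, ¬ H.Reachable x y → Gᶜ.Adj (x : V) y := by
    intro x y h
    refine nadj ?_ ?_
    · intro e; exact h (by rw [Subtype.ext e])
    · intro e
      exact h (SimpleGraph.Adj.reachable (by rw [hH]; simpa using e))
  have nrM : ∀ x y : Gᶜ.neighborSet v, ¬ K.Reachable x y → G.Adj (x : V) y := by
    intro x y h
    by_contra e
    have hne : (x : V) ≠ y := by
      intro e'; exact h (by rw [Subtype.ext e'])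
    have := nadj hne e
    exact h (SimpleGraph.Adj.reachable (by rw [hK]; exact this))
  -- (1)
  have s1 : ∀ (x : G.neighborSet v) (m : Gᶜ.neighborSet v), ¬ G.Adj x m →
      ∃ y : G.neighborSet v, ¬ H.Reachable x y ∧ G.Adj y m := by
    intro x m hxm
    obtain ⟨z, hz1, hz2⟩ := cn v m (vM m)
    by_cases hr : H.Reachable x ⟨z, hz1⟩
    · obtain ⟨c, d, hxc, hcd, hc1, hd1⟩ := cross ((reachable_iff_reflTransGen _ _).1 hr)
        (fun y => ¬ G.Adj (y : V) m) hxm (by simpa using hz2.symm)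
      rw [not_not] at hd1
      have hxc' : H.Reachable x c := (reachable_iff_reflTransGen _ _).2 hxc
      have hxd' : H.Reachable x d := hxc'.trans hcd.reachable
      have hcd' : G.Adj (c : V) d := by rw [hH] at hcd; simpa using hcd
      obtain ⟨y, hy⟩ := otherN x
      refine ⟨y, hy, ?_⟩
      by_contra hym
      exact hB (mkBull (a := v) (b := d) (c := c) (d := y) (e := m) (vN d) hcd'.symm (vN c) (vN y)
        hd1 (vM m) (nrN d y fun h => hy (hxd'.trans h)) (nrN c y fun h => hy (hxc'.trans h))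
        (nadj (xm c m) hc1) (nadj (xm y m) hym))
    · exact ⟨⟨z, hz1⟩, hr, hz2.symm⟩
  -- (2)
  have s2 : ∀ (x : G.neighborSet v) (p m q : Gᶜ.neighborSet v), K.Reachable p m → G.Adj x p →
      ¬ G.Adj x m → ¬ K.Reachable p q → ¬ G.Adj x q := by
    intro x p m q hpm hxp hxm hpq hxq
    obtain ⟨c, d, hxc, hcd, hc1, hd1⟩ := cross ((reachable_iff_reflTransGen _ _).1 hpm)
        (fun y => G.Adj (x : V) y) hxp hxm
    have hxc' : K.Reachable p c := (reachable_iff_reflTransGen _ _).2 hxc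
    have hxd' : K.Reachable p d := hxc'.trans hcd.reachable
    have hcd' : Gᶜ.Adj (c : V) d := by rw [hK] at hcd; exact hcd
    have hcq : G.Adj (c : V) q := nrM c q fun h => hpq (hxc'.trans h)
    have hdq : G.Adj (d : V) q := nrM d q fun h => hpq (hxd'.trans h)
    exact hB (mkBull (a := (x : V)) (b := q) (c := c) (d := v) (e := d) hxq hcq.symm hc1
      (vN x).symm hdq.symm (nadj (xm x d) hd1) (vM q).symm (vM c).symm hcd' (vM d))
  -- (3)
  have s3 : ∀ (x y : G.neighborSet v) (p q : Gᶜ.neighborSet v), Gᶜ.Adj (x : V) y → G.Adj x p →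
      ¬ G.Adj y p → G.Adj y q → ¬ G.Adj x q → ¬ G.Adj (p : V) q := by
    intro x y p q hxy hxp hyp hyq hxq hpq
    exact hC (mkC5 (a := v) (b := x) (c := p) (d := q) (e := y) (vN x) hxp hpq hyq.symm (vN y)
      (vM p) (vM q) (nadj (xm x q) hxq) hxy (nadj (xm y p) hyp).symm)
  -- the choice of `x`
  obtain ⟨x, -, hx⟩ := Finset.exists_max_image (Finset.univ : Finset (G.neighborSet v))
    (fun x => (Finset.univ.filter fun p : Gᶜ.neighborSet v => G.Adj (x : V) p).card)
    ⟨x1, Finset.mem_univ _⟩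
  have step : ∀ m : Gᶜ.neighborSet v, ¬ G.Adj x m →
      ∃ p : Gᶜ.neighborSet v, G.Adj (x : V) p ∧ Gᶜ.Adj (p : V) m := by
    intro m hxm
    obtain ⟨y, hxy, hym⟩ := s1 x m hxm
    have hex : ∃ p : Gᶜ.neighborSet v, G.Adj (x : V) p ∧ ¬ G.Adj (y : V) p := by
      by_contra hno
      push Not at hno
      have hss : (Finset.univ.filter fun p : Gᶜ.neighborSet v => G.Adj (x : V) p) ⊂
          (Finset.univ.filter fun p : Gᶜ.neighborSet v => G.Adj (y : V) p) := by
        rw [Finset.ssubset_iff_of_subset]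
        · exact ⟨m, by simpa using hym, by simpa using hxm⟩
        · intro p hp
          rw [Finset.mem_filter] at hp ⊢
          exact ⟨Finset.mem_univ _, hno p hp.2⟩
      have := Finset.card_lt_card hss
      exact absurd (hx y (Finset.mem_univ _)) (by simpa using this)
    obtain ⟨p, hp1, hp2⟩ := hex
    refine ⟨p, hp1, nadj ?_ (s3 x y p m (nrN x y hxy) hp1 hp2 hym hxm)⟩
    intro e
    exact hxm (e ▸ hp1)
  obtain ⟨m0, hm0, hm0'⟩ := cn' v x (vN x)
  obtain ⟨p0, hp0, hp0'⟩ := step ⟨m0, hm0⟩ (nad hm0')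
  obtain ⟨q, hq⟩ := otherM p0
  have hr0 : K.Reachable p0 ⟨m0, hm0⟩ := SimpleGraph.Adj.reachable (by rw [hK]; exact hp0')
  have hxq := s2 x p0 ⟨m0, hm0⟩ q hr0 hp0 (nad hm0') hq
  obtain ⟨p1, hp1, hp1'⟩ := step q hxq
  have hr1 : K.Reachable p0 p1 := by
    by_contra h
    exact s2 x p0 ⟨m0, hm0⟩ p1 hr0 hp0 (nad hm0') h hp1
  exact hq (hr1.trans (SimpleGraph.Adj.reachable (by rw [hK]; exact hp1')))


section caseA

variable {V : Type} [Fintype V] [DecidableEq V] {G : SimpleGraph V} [DecidableRel G.Adj] {v : V}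

/-- an edge of `M` with a common neighbour in `N` -/
def E (G : SimpleGraph V) (v : V) (p q : Gᶜ.neighborSet v) : Prop :=
  ∃ x : G.neighborSet v, G.Adj (p : V) q ∧ G.Adj (x : V) p ∧ G.Adj (x : V) q

lemma nadj' {u w : V} (h1 : u ≠ w) (h2 : ¬ G.Adj u w) : Gᶜ.Adj u w := by
  rw [compl_adj]; exact ⟨h1, h2⟩

lemma nad' {u w : V} (h : Gᶜ.Adj u w) : ¬ G.Adj u w := by rw [compl_adj] at h; exact h.2

lemma xm' (x : G.neighborSet v) (m : Gᶜ.neighborSet v) : (x : V) ≠ m := by
  intro h
  exact nad' m.2 (h ▸ x.2)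

lemma claim1 (hB : ¬ Nonempty (bull ↪g G)) (x : G.neighborSet v) (p q r : Gᶜ.neighborSet v)
    (h1 : G.Adj (x : V) p) (h2 : G.Adj (x : V) q) (h3 : G.Adj (p : V) q) (h4 : ¬ G.Adj (x : V) r)
    (h5 : G.Adj (r : V) p) : G.Adj (r : V) q := by
  by_contra h
  have hrq : (r : V) ≠ q := by
    intro e; exact h4 (e ▸ h2)
  exact hB (mkBull (a := (x : V)) (b := p) (c := q) (d := v) (e := r) h1 h3 h2
    (show G.Adj v x from x.2).symm h5.symm (nadj' (xm' x r) h4)
    (show Gᶜ.Adj v p from p.2).symm (show Gᶜ.Adj v q from q.2).symm (nadj' hrq h).symm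
    (show Gᶜ.Adj v r from r.2))

lemma p4kill (hC : ¬ Nonempty (cycleGraph 5 ↪g G)) (hB : ¬ Nonempty (bull ↪g G))
    (cn : ∀ m : Gᶜ.neighborSet v, ∃ x : G.neighborSet v, G.Adj (x : V) m)
    (p1 p2 p3 p4 : Gᶜ.neighborSet v) (h12 : G.Adj (p1 : V) p2) (h23 : G.Adj (p2 : V) p3)
    (h34 : G.Adj (p3 : V) p4) (h13 : Gᶜ.Adj (p1 : V) p3) (h24 : Gᶜ.Adj (p2 : V) p4)
    (h14 : Gᶜ.Adj (p1 : V) p4) (e12 : ∀ x : G.neighborSet v, G.Adj (x : V) p1 → ¬ G.Adj (x : V) p2)
    (e23 : ∀ x : G.neighborSet v, G.Adj (x : V) p2 → ¬ G.Adj (x : V) p3)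
    (e34 : ∀ x : G.neighborSet v, G.Adj (x : V) p3 → ¬ G.Adj (x : V) p4) : False := by
  have vN : ∀ x : G.neighborSet v, G.Adj v x := fun x => x.2
  have vM : ∀ m : Gᶜ.neighborSet v, Gᶜ.Adj v m := fun m => m.2
  -- (B2)
  have b2 : ∀ (x y : G.neighborSet v) (p q : Gᶜ.neighborSet v), G.Adj (x : V) y → G.Adj (x : V) p →
      ¬ G.Adj (y : V) p → G.Adj (y : V) q → ¬ G.Adj (x : V) q → Gᶜ.Adj (p : V) q → False := by
    intro x y p q hxy hxp hyp hyq hxq hpq
    exact hB (mkBull (a := (x : V)) (b := y) (c := v) (d := p) (e := q) hxy (vN y).symm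
      (vN x).symm hxp hyq (nadj' (xm' x q) hxq) (nadj' (xm' y p) hyp) (vM p) (vM q) hpq)
  -- (C)
  have cc : ∀ (x y : G.neighborSet v) (p q : Gᶜ.neighborSet v), G.Adj (x : V) p →
      ¬ G.Adj (y : V) p → G.Adj (y : V) q → ¬ G.Adj (x : V) q → G.Adj (p : V) q →
      G.Adj (x : V) y := by
    intro x y p q hxp hyp hyq hxq hpq
    by_contra h
    have hne : (x : V) ≠ y := by intro e; exact hyp (e ▸ hxp)
    exact hC (mkC5 (a := v) (b := x) (c := p) (d := q) (e := y) (vN x) hxp hpq hyq.symm (vN y)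
      (vM p) (vM q) (nadj' (xm' x q) hxq) (nadj' hne h) (nadj' (xm' y p) hyp).symm)
  have e21 : ∀ x : G.neighborSet v, G.Adj (x : V) p2 → ¬ G.Adj (x : V) p1 :=
    fun x h h' => e12 x h' h
  have e32 : ∀ x : G.neighborSet v, G.Adj (x : V) p3 → ¬ G.Adj (x : V) p2 :=
    fun x h h' => e23 x h' h
  have e43 : ∀ x : G.neighborSet v, G.Adj (x : V) p4 → ¬ G.Adj (x : V) p3 :=
    fun x h h' => e34 x h' h
  have a12 : ∀ x y : G.neighborSet v, G.Adj (x : V) p1 → G.Adj (y : V) p2 → G.Adj (x : V) y :=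
    fun x y hx hy => cc x y p1 p2 hx (e21 y hy) hy (e12 x hx) h12
  have a23 : ∀ x y : G.neighborSet v, G.Adj (x : V) p2 → G.Adj (y : V) p3 → G.Adj (x : V) y :=
    fun x y hx hy => cc x y p2 p3 hx (e32 y hy) hy (e23 x hx) h23
  have a34 : ∀ x y : G.neighborSet v, G.Adj (x : V) p3 → G.Adj (y : V) p4 → G.Adj (x : V) y :=
    fun x y hx hy => cc x y p3 p4 hx (e43 y hy) hy (e34 x hx) h34
  obtain ⟨x2, hx2⟩ := cn p2
  obtain ⟨x3, hx3⟩ := cn p3
  -- no vertex is adjacent to `p1` and `p4`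
  have n14 : ∀ x : G.neighborSet v, G.Adj (x : V) p1 → ¬ G.Adj (x : V) p4 := by
    intro x hx1 hx4
    have hxx2 := a12 x x2 hx1 hx2
    have hxx3 := (a34 x3 x hx3 hx4).symm
    have h1 : G.Adj (x2 : V) p4 := by
      by_contra h
      exact b2 x x2 p4 p2 hxx2 hx4 h hx2 (e12 x hx1) h24.symm
    have h2 : G.Adj (x3 : V) p1 := by
      by_contra h
      exact b2 x x3 p1 p3 hxx3 hx1 h hx3 (e43 x hx4) h13
    exact b2 x2 x3 p4 p1 (a23 x2 x3 hx2 hx3) h1 (e34 x3 hx3) h2 (e21 x2 hx2) h14.symm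
  have n14' : ∀ x y : G.neighborSet v, G.Adj (x : V) p1 → G.Adj (y : V) p4 → ¬ G.Adj (x : V) y := by
    intro x y hx hy hxy
    exact b2 x y p1 p4 hxy hx (fun h => n14 y h hy) hy (n14 x hx) h14
  obtain ⟨x1, hx1⟩ := cn p1
  obtain ⟨x4, hx4⟩ := cn p4
  have h24' : ¬ G.Adj (x2 : V) p4 := fun h => n14' x1 x2 hx1 h (a12 x1 x2 hx1 hx2)
  have h42' : ¬ G.Adj (x4 : V) p2 := fun h => n14' x1 x4 hx1 hx4 (a12 x1 x4 hx1 h)
  have hx24 : ¬ G.Adj (x2 : V) x4 := fun h => b2 x2 x4 p2 p4 h hx2 h42' hx4 h24' h24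
  have ne24 : (x2 : V) ≠ x4 := by intro e; exact h24' (e ▸ hx4)
  have ne14 : (x1 : V) ≠ x4 := by intro e; exact n14 x1 hx1 (e ▸ hx4)
  exact hB (mkBull (a := v) (b := x2) (c := x1) (d := x4) (e := p2) (vN x2)
    (a12 x1 x2 hx1 hx2).symm (vN x1) (vN x4) hx2 (vM p2) (nadj' ne24 hx24)
    (nadj' ne14 (n14' x1 x4 hx1 hx4)) (nadj' (xm' x1 p2) (e12 x1 hx1))
    (nadj' (xm' x4 p2) h42'))

lemma caseA (hC : ¬ Nonempty (cycleGraph 5 ↪g G)) (hB : ¬ Nonempty (bull ↪g G))
    (cn : ∀ m : Gᶜ.neighborSet v, ∃ x : G.neighborSet v, G.Adj (x : V) m)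
    (cn' : ∀ x : G.neighborSet v, ∃ m : Gᶜ.neighborSet v, ¬ G.Adj (x : V) m)
    (h1 : (G.induce (Gᶜ.neighborSet v)).Preconnected)
    (h2 : (Gᶜ.induce (Gᶜ.neighborSet v)).Preconnected)
    (hne : ∃ m1 m2 : Gᶜ.neighborSet v, m1 ≠ m2) : False := by
  classical
  have Esymm : ∀ p q, E G v p q → E G v q p := by
    rintro p q ⟨x, a, b, c⟩
    exact ⟨x, a.symm, c, b⟩
  have Csymm : ∀ p q, Relation.ReflTransGen (E G v) p q → Relation.ReflTransGen (E G v) q p := by
    intro p q h
    induction h with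
    | refl => exact Relation.ReflTransGen.refl
    | tail _ hbc ih => exact (Relation.ReflTransGen.single (Esymm _ _ hbc)).trans ih
  -- crossing edges
  have cr1 : ∀ (P : Gᶜ.neighborSet v → Prop) (a b : Gᶜ.neighborSet v), P a → ¬ P b →
      ∃ c d : Gᶜ.neighborSet v, G.Adj (c : V) d ∧ P c ∧ ¬ P d := by
    intro P a b ha hb
    obtain ⟨c, d, _, hcd, hc, hd⟩ := cross ((reachable_iff_reflTransGen _ _).1 (h1 a b)) P ha hb
    exact ⟨c, d, by simpa using hcd, hc, hd⟩
  have cr2 : ∀ (P : Gᶜ.neighborSet v → Prop) (a b : Gᶜ.neighborSet v), P a → ¬ P b →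
      ∃ c d : Gᶜ.neighborSet v, Gᶜ.Adj (c : V) d ∧ P c ∧ ¬ P d := by
    intro P a b ha hb
    obtain ⟨c, d, _, hcd, hc, hd⟩ := cross ((reachable_iff_reflTransGen _ _).1 (h2 a b)) P ha hb
    exact ⟨c, d, hcd, hc, hd⟩
  have claim2 : ∀ p q r : Gᶜ.neighborSet v, Relation.ReflTransGen (E G v) p q → ¬ Relation.ReflTransGen (E G v) p r →
      G.Adj (p : V) r → G.Adj (q : V) r := by
    intro p q r hpq hpr h
    induction hpq with
    | refl => exact h
    | @tail b c hb hbc ih =>
      obtain ⟨x, hbc', hxb, hxc⟩ := hbc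
      by_cases hxr : G.Adj (x : V) r
      · exact absurd (hb.tail ⟨x, ih, hxb, hxr⟩) hpr
      · exact (claim1 hB x b c r hxb hxc hbc' hxr ih.symm).symm
  -- there are two classes
  have claim3 : ∃ p q, ¬ Relation.ReflTransGen (E G v) p q := by
    by_contra hall
    push Not at hall
    obtain ⟨m1, m2, hm⟩ := hne
    let hom : Finset (Gᶜ.neighborSet v) → Prop := fun D =>
      ∀ r, r ∉ D → ∀ a ∈ D, ∀ b ∈ D, G.Adj (r : V) a → G.Adj (r : V) b
    obtain ⟨D, hD, hmax⟩ := Finset.exists_max_image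
      ((Finset.univ : Finset (Finset (Gᶜ.neighborSet v))).filter
        fun D => D.Nonempty ∧ D ≠ Finset.univ ∧ hom D) (fun D => D.card)
      ⟨{m1}, by
        rw [Finset.mem_filter]
        refine ⟨Finset.mem_univ _, ⟨m1, by simp⟩, ?_, ?_⟩
        · intro e
          have : m2 ∈ ({m1} : Finset (Gᶜ.neighborSet v)) := e ▸ Finset.mem_univ _
          rw [Finset.mem_singleton] at this
          exact hm this.symm
        · intro r _ a ha b hb hra
          rw [Finset.mem_singleton] at ha hb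
          rw [hb, ← ha]; exact hra⟩
    rw [Finset.mem_filter] at hD
    obtain ⟨-, ⟨p, hp⟩, hDu, hDh⟩ := hD
    obtain ⟨u, hu⟩ : ∃ u, u ∉ D := by
      by_contra h
      push Not at h
      exact hDu (Finset.eq_univ_iff_forall.2 h)
    obtain ⟨c, d, -, ⟨x, hcd, hxc, hxd⟩, hcD, hdD⟩ := cross (hall p u) (fun w => w ∈ D) hp hu
    let rx : Gᶜ.neighborSet v → Gᶜ.neighborSet v → Prop := fun a b =>
      G.Adj (a : V) b ∧ G.Adj (x : V) a ∧ G.Adj (x : V) b
    let D' : Finset (Gᶜ.neighborSet v) := Finset.univ.filter fun w => Relation.ReflTransGen rx d w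
    have mD' : ∀ w, w ∈ D' ↔ Relation.ReflTransGen rx d w := by
      intro w; simp [D']
    have hD'x : ∀ w ∈ D', G.Adj (x : V) w := by
      intro w hw
      rw [mD'] at hw
      cases hw with
      | refl => exact hxd
      | tail _ h => exact h.2.2
    have hi : ∀ r, r ∉ D' → G.Adj (r : V) d → ∀ b ∈ D', G.Adj (r : V) b := by
      intro r hr hrd b hb
      rw [mD'] at hb hr
      induction hb with
      | refl => exact hrd
      | @tail a b ha hab ih =>
        by_cases hxr : G.Adj (x : V) r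
        · exact absurd (ha.tail ⟨ih.symm, hab.2.1, hxr⟩) hr
        · exact claim1 hB x a b r hab.2.1 hab.2.2 hab.1 hxr ih
    have hii : ∀ r, r ∉ D' → ∀ a ∈ D', G.Adj (r : V) a → G.Adj (r : V) d := by
      intro r hr a ha hra
      rw [mD'] at ha hr
      induction ha with
      | refl => exact hra
      | @tail a b ha hab ih =>
        refine ih ?_
        by_cases hxr : G.Adj (x : V) r
        · exact absurd ((ha.tail hab).tail ⟨hra.symm, hab.2.2, hxr⟩) hr
        · exact claim1 hB x b a r hab.2.2 hab.2.1 hab.1.symm hxr hra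
    have hD'h : hom D' := fun r hr a ha b hb hra => hi r hr (hii r hr a ha hra) b hb
    have hcD' : c ∈ D' := by
      rw [mD']; exact Relation.ReflTransGen.single ⟨hcd.symm, hxd, hxc⟩
    have hdD' : d ∈ D' := by rw [mD']
    have hU : hom (D ∪ D') := by
      intro r hr a ha b hb hra
      rw [Finset.mem_union, not_or] at hr
      have hrc : G.Adj (r : V) c := by
        rcases Finset.mem_union.1 ha with h | h
        · exact hDh r hr.1 a h c hcD hra
        · exact hD'h r hr.2 a h c hcD' hra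
      rcases Finset.mem_union.1 hb with h | h
      · exact hDh r hr.1 c hcD b h hrc
      · exact hD'h r hr.2 c hcD' b h hrc
    have huniv : D ∪ D' = Finset.univ := by
      by_contra hne'
      have h3 := hmax (D ∪ D') (by
        rw [Finset.mem_filter]
        exact ⟨Finset.mem_univ _, ⟨p, Finset.mem_union_left _ hp⟩, hne', hU⟩)
      have h4 : D ⊂ D ∪ D' := by
        rw [Finset.ssubset_iff_of_subset Finset.subset_union_left]
        exact ⟨d, Finset.mem_union_right _ hdD', hdD⟩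
      exact absurd (Finset.card_lt_card h4) (by simpa using h3)
    obtain ⟨m0, hm0⟩ := cn' x
    have hm0D : m0 ∉ D' := fun h => hm0 (hD'x m0 h)
    obtain ⟨a, b, hab, ha, hb⟩ := cr2 (fun w => w ∉ D') m0 d hm0D (by simpa using hdD')
    rw [not_not] at hb
    have haD : a ∈ D := by
      have : a ∈ D ∪ D' := huniv ▸ Finset.mem_univ _
      rcases Finset.mem_union.1 this with h | h
      · exact h
      · exact absurd h ha
    have h5 : G.Adj (d : V) a := hDh d hdD c hcD a haD hcd.symm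
    exact nad' hab (hi a ha h5.symm b hb)
  -- the classes
  let s : Setoid (Gᶜ.neighborSet v) := ⟨Relation.ReflTransGen (E G v),
    fun _ => Relation.ReflTransGen.refl, fun h => Csymm _ _ h, fun h h' => h.trans h'⟩
  let t : Gᶜ.neighborSet v → Gᶜ.neighborSet v := fun m => (Quotient.mk s m).out
  have ht : ∀ m, Relation.ReflTransGen (E G v) m (t m) := by
    intro m
    exact Csymm _ _ (Quotient.exact (Quotient.out_eq (Quotient.mk s m)))
  have ht' : ∀ a b, Relation.ReflTransGen (E G v) a b → t a = t b := by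
    intro a b h
    have : Quotient.mk s a = Quotient.mk s b := Quotient.sound h
    show (Quotient.mk s a).out = (Quotient.mk s b).out
    rw [this]
  have htt : ∀ m, t (t m) = t m := fun m => (ht' _ _ (ht m)).symm
  let T : Finset (Gᶜ.neighborSet v) := Finset.univ.image t
  have mT : ∀ a ∈ T, t a = a := by
    intro a ha
    obtain ⟨m, -, rfl⟩ := Finset.mem_image.1 ha
    exact htt m
  have tT : ∀ a, t a ∈ T := fun a => Finset.mem_image_of_mem _ (Finset.mem_univ _)
  have sep : ∀ a ∈ T, ∀ b ∈ T, a ≠ b → ¬ Relation.ReflTransGen (E G v) a b := by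
    intro a ha b hb hab h
    apply hab
    rw [← mT a ha, ← mT b hb]; exact ht' _ _ h
  have hT2 : 2 ≤ T.card := by
    obtain ⟨p, q, hpq⟩ := claim3
    have hne' : t p ≠ t q := by
      intro e
      exact hpq ((ht p).trans (e ▸ Csymm _ _ (ht q)))
    exact Finset.one_lt_card.2 ⟨t p, tT p, t q, tT q, hne'⟩
  by_cases hno : (∀ a ∈ T, ∀ b ∈ T, ∀ c ∈ T, ∀ d ∈ T, a ≠ b → a ≠ c → a ≠ d → b ≠ c → b ≠ d →
      c ≠ d → G.Adj (a : V) b → G.Adj (b : V) c → G.Adj (c : V) d → ¬ G.Adj (a : V) c →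
      ¬ G.Adj (b : V) d → ¬ G.Adj (a : V) d → False)
  · obtain ⟨X, Y, ⟨x0, hx0⟩, ⟨y0, hy0⟩, hdis, hXY, hcase⟩ := Pool.Agent.X49.seinsche T hT2
      (fun a b => G.Adj (a : V) b) (fun a b h => h.symm) hno
    have hXT : ∀ a ∈ X, a ∈ T := fun a ha => hXY ▸ Finset.mem_union_left _ ha
    have hYT : ∀ a ∈ Y, a ∈ T := fun a ha => hXY ▸ Finset.mem_union_right _ ha
    have hx0' : t x0 ∈ X := by rw [mT x0 (hXT x0 hx0)]; exact hx0
    have hy0' : ¬ t y0 ∈ X := by
      rw [mT y0 (hYT y0 hy0)]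
      exact fun h => Finset.disjoint_left.1 hdis h hy0
    have hYof : ∀ b, ¬ t b ∈ X → t b ∈ Y := by
      intro b hb
      have : t b ∈ X ∪ Y := hXY ▸ tT b
      rcases Finset.mem_union.1 this with h | h
      · exact absurd h hb
      · exact h
    rcases hcase with hn | hj
    · obtain ⟨a, b, hab, ha, hb⟩ := cr1 (fun m => t m ∈ X) x0 y0 hx0' hy0'
      have hC' : ¬ Relation.ReflTransGen (E G v) a b := by
        intro h; exact hb ((ht' _ _ h) ▸ ha)
      have k1 : G.Adj (t a : V) b := claim2 a (t a) b (ht a) hC' hab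
      have hC'' : ¬ Relation.ReflTransGen (E G v) b (t a) := by
        intro h; exact hC' ((ht a).trans (Csymm _ _ h))
      have k2 : G.Adj (t b : V) (t a) := claim2 b (t b) (t a) (ht b) hC'' k1.symm
      exact hn _ ha _ (hYof b hb) k2.symm
    · obtain ⟨a, b, hab, ha, hb⟩ := cr2 (fun m => t m ∈ X) x0 y0 hx0' hy0'
      have hC' : ¬ Relation.ReflTransGen (E G v) a b := by
        intro h; exact hb ((ht' _ _ h) ▸ ha)
      have k0 : G.Adj (t a : V) (t b) := hj _ ha _ (hYof b hb)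
      have hC1 : ¬ Relation.ReflTransGen (E G v) (t a) (t b) := by
        intro h; exact hC' (((ht a).trans h).trans (Csymm _ _ (ht b)))
      have k1 : G.Adj (a : V) (t b) := claim2 (t a) a (t b) (Csymm _ _ (ht a)) hC1 k0
      have hC2 : ¬ Relation.ReflTransGen (E G v) (t b) a := by
        intro h; exact hC' (Csymm _ _ ((ht b).trans h))
      have k2 : G.Adj (b : V) a := claim2 (t b) b a (Csymm _ _ (ht b)) hC2 k1.symm
      exact nad' hab k2.symm
  · push Not at hno
    obtain ⟨a, ha, b, hb, c, hc, d, hd, ab, ac, ad, bc, bd, cd, h12, h23, h34, h13, h24, h14⟩ := hno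
    have ne : ∀ {p q : Gᶜ.neighborSet v}, p ≠ q → (p : V) ≠ q := fun h e => h (Subtype.ext e)
    exact p4kill hC hB cn a b c d h12 h23 h34 (nadj' (ne ac) h13) (nadj' (ne bd) h24)
      (nadj' (ne ad) h14.1)
      (fun x h h' => sep a ha b hb ab (Relation.ReflTransGen.single ⟨x, h12, h, h'⟩))
      (fun x h h' => sep b hb c hc bc (Relation.ReflTransGen.single ⟨x, h23, h, h'⟩))
      (fun x h h' => sep c hc d hd cd (Relation.ReflTransGen.single ⟨x, h34, h, h'⟩))

end caseA


lemma caseA2 {V : Type} [Fintype V] [DecidableEq V] (G G' : SimpleGraph V) (e : G' = Gᶜ) (v : V)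
    (hC : ¬ Nonempty (cycleGraph 5 ↪g G)) (hB : ¬ Nonempty (bull ↪g G))
    (cn : ∀ m ∈ G'.neighborSet v, ∃ x ∈ G.neighborSet v, G.Adj x m)
    (cn' : ∀ x ∈ G.neighborSet v, ∃ m ∈ G'.neighborSet v, ¬ G.Adj x m)
    (h1 : (G.induce (G'.neighborSet v)).Preconnected)
    (h2 : (G'.induce (G'.neighborSet v)).Preconnected)
    (hne : ∃ m, G.Adj v m) : False := by
  classical
  subst e
  obtain ⟨x, hx⟩ := hne
  obtain ⟨m1, hm1, hxm1⟩ := cn' x hx
  obtain ⟨y, hy, hym⟩ := cn m1 hm1
  obtain ⟨m2, hm2, hym2⟩ := cn' y hy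
  refine caseA (v := v) hC hB (fun m => ?_) (fun x => ?_) h1 h2
    ⟨⟨m1, hm1⟩, ⟨m2, hm2⟩, fun h => ?_⟩
  · obtain ⟨x, hx, hxm⟩ := cn m m.2
    exact ⟨⟨x, hx⟩, hxm⟩
  · obtain ⟨m, hm, hxm⟩ := cn' x x.2
    exact ⟨⟨m, hm⟩, hxm⟩
  · have : m1 = m2 := congrArg Subtype.val h
    exact hym2 (this ▸ hym)

lemma flip {V : Type} {G : SimpleGraph V} (H : SimpleGraph (Fin 5)) (σ : Fin 5 → Fin 5)
    (hσ : ∀ i j : Fin 5, i < j → σ i ≠ σ j ∧ (H.Adj i j ↔ ¬ H.Adj (σ i) (σ j))) :
    Nonempty (H ↪g Gᶜ) → Nonempty (H ↪g G) := by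
  rintro ⟨f⟩
  refine mkEmb H (fun i => f (σ i)) ?_
  intro i j hij
  obtain ⟨h1, h2⟩ := hσ i j hij
  have hne : f (σ i) ≠ f (σ j) := fun h => h1 (f.injective h)
  have h3 : Gᶜ.Adj (f (σ i)) (f (σ j)) ↔ H.Adj (σ i) (σ j) := f.map_rel_iff
  by_cases h : H.Adj i j
  · left
    refine ⟨h, ?_⟩
    have h4 : ¬ Gᶜ.Adj (f (σ i)) (f (σ j)) := fun h5 => (h2.1 h) (h3.1 h5)
    rw [compl_adj] at h4
    by_contra h5
    exact h4 ⟨hne, h5⟩
  · right
    refine ⟨h, h3.2 ?_⟩
    by_contra h5
    exact h (h2.2 h5)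

/-- Let `G` be `k`-regular on `2k+1` vertices, `k ≥ 1`, let `v` be a vertex, `N` the set of its
neighbours and `M` the set of its non-neighbours.  If (a) `G[N]` and its complement are connected,
or (b) `G[M]` and its complement are connected, or (c) `G[N]` is disconnected and the complement
of `G[M]` is disconnected, then `G` contains an induced 5-cycle or an induced bull. -/
theorem result : ∀ (n k : ℕ) (G : SimpleGraph (Fin n)), 0 < k → n = 2 * k + 1 →
    (∀ x, (G.neighborSet x).ncard = k) → ∀ v : Fin n,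
    (((G.induce (G.neighborSet v)).Preconnected ∧ (Gᶜ.induce (G.neighborSet v)).Preconnected) ∨
      ((G.induce (Gᶜ.neighborSet v)).Preconnected ∧
        (Gᶜ.induce (Gᶜ.neighborSet v)).Preconnected) ∨
      (¬ (G.induce (G.neighborSet v)).Preconnected ∧
        ¬ (Gᶜ.induce (Gᶜ.neighborSet v)).Preconnected)) →
    Nonempty (cycleGraph 5 ↪g G) ∨ Nonempty (bull ↪g G) := by
  classical
  intro n k G hk0 hn hk v hcases
  have hG : G.IsRegularOfDegree k := by
    intro x
    rw [← hk x, ← card_neighborFinset_eq_degree, Set.ncard_eq_toFinset_card']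
    rfl
  have hc : Fintype.card (Fin n) = 2 * k + 1 := by simpa using hn
  have hG' : Gᶜ.IsRegularOfDegree k := by
    have := hG.compl
    have e : Fintype.card (Fin n) - 1 - k = k := by omega
    rwa [e] at this
  have cn : ∀ u w : Fin n, Gᶜ.Adj u w → ∃ z, G.Adj u z ∧ G.Adj w z := by
    intro u w h
    rw [compl_adj] at h
    exact commonNbr hG hc h.1 h.2
  have cn' : ∀ u w : Fin n, G.Adj u w → ∃ z, Gᶜ.Adj u z ∧ Gᶜ.Adj w z := by
    intro u w h
    refine commonNbr hG' hc h.ne ?_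
    rw [compl_adj]; tauto
  have hv : ∃ m, G.Adj v m := by
    have : 0 < G.degree v := by rw [hG v]; exact hk0
    exact (G.degree_pos_iff_exists_adj v).1 this
  have hv' : ∃ m, Gᶜ.Adj v m := by
    have : 0 < Gᶜ.degree v := by rw [hG' v]; exact hk0
    exact (Gᶜ.degree_pos_iff_exists_adj v).1 this
  rcases hcases with h | h | h
  · by_contra hcon
    rw [not_or] at hcon
    refine caseA2 Gᶜ G (compl_compl G).symm v ?_ ?_ ?_ ?_ h.2 h.1 hv'
    · intro h5
      refine hcon.1 (flip _ ![0, 2, 4, 1, 3] ?_ h5)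
      decide
    · intro h5
      refine hcon.2 (flip _ ![3, 4, 2, 1, 0] ?_ h5)
      unfold bull
      simp only [SimpleGraph.fromEdgeSet_adj, Set.mem_insert_iff, Set.mem_singleton_iff]
      decide
    · intro m hm
      obtain ⟨z, hz1, hz2⟩ := cn' v m hm
      exact ⟨z, hz1, hz2.symm⟩
    · intro x hx
      obtain ⟨z, hz1, hz2⟩ := cn v x hx
      exact ⟨z, hz1, fun h => nad' h hz2⟩
  · by_contra hcon
    rw [not_or] at hcon
    refine caseA2 G Gᶜ rfl v hcon.1 hcon.2 ?_ ?_ h.1 h.2 hv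
    · intro m hm
      obtain ⟨z, hz1, hz2⟩ := cn v m hm
      exact ⟨z, hz1, hz2.symm⟩
    · intro x hx
      obtain ⟨z, hz1, hz2⟩ := cn' v x hx
      exact ⟨z, hz1, nad' hz2⟩
  · exact main G k hG hc v h.1 h.2

end Pool.Agent.Results.MP_aa43e9_co.DecomposableNeighbourhoods
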